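import Pool.Agent.H346.QC.Stm
import Pool.Agent.H346.AT.Tree

set_option autoImplicit false

/-!
# The family of lines of `(b0 w)^140`, `(b1 w)^140` in the Bass-Serre tree of `B * Z/280`
-/

namespace Pool.Agent.H627.QC

open Monoid Multiplicative Pool.Agent.H346.AT Pool.Agent.H346.QC Pool.Agent.H17R2 SimpleGraph

/-! ## The free product -/

section free

variable (B : Type) [Group B]

/-- the cyclic factor -/
abbrev CZ : Type := Multiplicative (ZMod 280)

/-- the two factors -/
def HH : Bool → Type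
  | false => B
  | true => CZ

instance : ∀ i, Group (HH B i)
  | false => inferInstanceAs (Group B)
  | true => inferInstanceAs (Group CZ)

/-- the embeddings of the trivial group -/
def ph : ∀ i, Unit →* HH B i := fun _ => 1

/-- the maps to the free product -/
def jj : ∀ i, HH B i →* Gam B
  | false => Coprod.inl
  | true => Coprod.inr

lemma hjj (z : Unit) : jj B false (ph B false z) = jj B true (ph B true z) := by
  show jj B false 1 = jj B true 1
  rw [map_one, map_one]

lemma hph : ∀ i, Function.Injective (ph B i) := fun _ _ _ _ => rfl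

/-- the map of `B` to the push-out -/
def oA : B →* PushoutI (ph B) := PushoutI.of (φ := ph B) false

/-- the map of the cyclic group to the push-out -/
def oW : CZ →* PushoutI (ph B) := PushoutI.of (φ := ph B) true

/-- the map to the push-out -/
def th : Gam B →* PushoutI (ph B) := Coprod.lift (oA B) (oW B)

lemma hth : ∀ i (h : HH B i), th B (jj B i h) = PushoutI.of (φ := ph B) i h
  | false => fun h => Coprod.lift_apply_inl (oA B) (oW B) h
  | true => fun h => Coprod.lift_apply_inr (oA B) (oW B) h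

/-- the two vertex subgroups -/
def CC : Bool → Subgroup (Gam B) := fun i => (jj B i).range

theorem CC_nf : NF (CC B) := nf_push (ph B) (jj B) (hjj B) (th B) (hth B) (hph B)

variable {B}

lemma mem_false {x : Gam B} : x ∈ CC B false ↔ ∃ b : B, Coprod.inl b = x := Iff.rfl

lemma mem_true {x : Gam B} : x ∈ CC B true ↔ ∃ z : CZ, Coprod.inr z = x := Iff.rfl

lemma CC_inter {x : Gam B} (h0 : x ∈ CC B false) (h1 : x ∈ CC B true) : x = 1 := by
  obtain ⟨b, rfl⟩ := mem_false.1 h0
  obtain ⟨z, hz⟩ := mem_true.1 h1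
  have := congrArg (Coprod.fst : Gam B →* B) hz
  rw [Coprod.fst_apply_inr, Coprod.fst_apply_inl] at this
  rw [← this, map_one]

lemma CC_top : CC B false ⊔ CC B true = ⊤ := by
  have h : (Coprod.inl : B →* Gam B).range ⊔ (Coprod.inr : CZ →* Gam B).range = ⊤ :=
    Coprod.range_inl_sup_range_inr
  exact h

variable (B) in
/-- the tree -/
abbrev TT : SimpleGraph (BV (CC B)) := bsGraph (CC B)

lemma isTree : (TT B).IsTree := bs_isTree (CC_nf B) CC_top

lemma inl_inj {a b : B} (h : (Coprod.inl a : Gam B) = Coprod.inl b) : a = b := by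
  have := congrArg (Coprod.fst : Gam B →* B) h
  rwa [Coprod.fst_apply_inl, Coprod.fst_apply_inl] at this

lemma w_ne_inv : ww B ≠ (ww B)⁻¹ := by
  intro h
  have h1 := congrArg (Coprod.snd : Gam B →* CZ) h
  rw [map_inv, ww, Coprod.snd_apply_inr, ← ofAdd_neg] at h1
  have h2 : (1 : ZMod 280) = -1 := ofAdd.injective h1
  have h3 : ((2 : ℕ) : ZMod 280) = 0 := by
    have h4 : (1 : ZMod 280) + 1 = 0 := by
      nth_rewrite 2 [h2]
      rw [add_neg_cancel]
    rw [← h4]
    norm_num
  rw [ZMod.natCast_eq_zero_iff] at h3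
  omega

lemma w_ne_one : ww B ≠ 1 := by
  intro h
  apply w_ne_inv (B := B)
  rw [h, inv_one]

lemma w_mem : ww B ∈ CC B true := ⟨ofAdd (1 : ZMod 280), rfl⟩

lemma b_mem (b : B) : (Coprod.inl b : Gam B) ∈ CC B false := ⟨b, rfl⟩

lemma msm (g h : Gam B) (x : BV (CC B)) : (g * h) • x = g • (h • x) := by
  obtain ⟨i, y, rfl⟩ := exists_bv x
  rw [smul_bv, smul_bv, smul_bv, mul_assoc]

lemma osm (x : BV (CC B)) : (1 : Gam B) • x = x := by
  obtain ⟨i, y, rfl⟩ := exists_bv x
  rw [smul_bv, one_mul]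

lemma edge_unique {i : Bool} {a b : Gam B} (h : bv (CC B) i a = bv (CC B) i b)
    (h' : bv (CC B) (!i) a = bv (CC B) (!i) b) : a = b := by
  rw [bv_eq] at h h'
  have : a⁻¹ * b = 1 := by
    cases i
    · exact CC_inter h h'
    · exact CC_inter h' h
  exact inv_mul_eq_one.1 this

end free

/-! ## The metric -/

section metric

variable {B : Type} [Group B]

lemma actdist (g : Gam B) (x y : BV (CC B)) : (TT B).dist (g • x) (g • y) = (TT B).dist x y :=
  dist_act (bsAct (CC B)) (bs_adj_act) isTree g x y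

lemma par_aux (p : BV (CC B)) : ∀ (n : ℕ) (q r : BV (CC B)), (TT B).dist q r = n →
    2 ∣ (TT B).dist p q + (TT B).dist q r + (TT B).dist p r := by
  intro n
  induction n with
  | zero =>
    intro q r h
    obtain rfl := eq_of_zero isTree h
    rw [h]; omega
  | succ n ih =>
    intro q r h
    have hne : q ≠ r := by
      rintro rfl
      rw [dist_self] at h
      omega
    obtain ⟨y, a, hy⟩ := exists_closer isTree hne
    have h1 := ih y r (by omega)
    have h2 := adj_dist isTree a p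
    rw [(TT B).dist_comm (u := q) (v := p), (TT B).dist_comm (u := y) (v := p)] at h2
    omega

variable (B) in
/-- the integral tree -/
noncomputable def ZT : ZTree (BV (CC B)) where
  d p q := ((TT B).dist p q : ℤ)
  d_self p := by simp
  d_comm p q := by rw [(TT B).dist_comm]
  d_nonneg p q := by positivity
  tri p q r := by exact_mod_cast tri isTree p q r
  eq_of_zero p q h := eq_of_zero isTree (by exact_mod_cast h)
  par p q r := by
    have := par_aux p _ q r rfl
    exact_mod_cast this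
  four p q r s := by exact_mod_cast four isTree p q r s

lemma ZT_d (p q : BV (CC B)) : (ZT B).d p q = ((TT B).dist p q : ℤ) := rfl

lemma pfix' (g : Gam B) (p q : BV (CC B)) (hpq : p ≠ q) (hp : g • p = p) (hq : g • q = q) :
    g = 1 := by
  obtain ⟨y, a, hy⟩ := exists_closer isTree hpq
  have h1 : Bt (TT B) p y q := by
    unfold Bt
    have : (TT B).dist p y = 1 := dist_eq_one_iff_adj.2 a
    omega
  have h2 : g • y = y := fix_bt (bsAct (CC B)) bs_adj_act isTree hp hq h1
  obtain ⟨i, x, rfl, rfl⟩ := a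
  rw [smul_bv] at hp h2
  have := edge_unique hp h2
  exact mul_eq_right.1 this

end metric

/-! ## The lines -/

section lines

variable {B : Type} [Group B] (β : B)

/-- parity -/
def pp (m : ℤ) : Bool := decide (m % 2 = 1)

lemma pp_succ (m : ℤ) : pp (m + 1) = !pp m := by
  unfold pp
  rcases Int.emod_two_eq_zero_or_one m with h | h
  · rw [h, show (m + 1) % 2 = 1 by omega]; rfl
  · rw [h, show (m + 1) % 2 = 0 by omega]; rfl

lemma pp_eq {m n : ℤ} (h : pp m = pp n) : m % 2 = n % 2 := by
  unfold pp at h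
  rw [decide_eq_decide] at h
  omega

/-- the hyperbolic element -/
def gg : Gam B := Coprod.inl β * ww B

/-- the edges of the line -/
noncomputable def ee (m : ℤ) : Gam B :=
  gg β ^ (m / 2) * (if m % 2 = 0 then Coprod.inl β else gg β)

lemma ee_even {m : ℤ} (h : m % 2 = 0) : ee β m = ee β (m - 1) * Coprod.inl β := by
  unfold ee
  rw [if_pos h, if_neg (by omega)]
  have e : m / 2 = (m - 1) / 2 + 1 := by omega
  rw [e, zpow_add_one, mul_assoc]

lemma ee_odd {m : ℤ} (h : m % 2 = 1) : ee β m = ee β (m - 1) * ww B := by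
  unfold ee
  rw [if_neg (by omega), if_pos (by omega)]
  have e : m / 2 = (m - 1) / 2 := by omega
  rw [e, mul_assoc]
  rfl

lemma ee_add (m n : ℤ) : ee β (m + 2 * n) = gg β ^ n * ee β m := by
  unfold ee
  have e : (m + 2 * n) / 2 = n + m / 2 := by omega
  have e' : (m + 2 * n) % 2 = m % 2 := by omega
  rw [e, e', zpow_add, mul_assoc]

/-- the line -/
noncomputable def fi (m : ℤ) : BV (CC B) := bv (CC B) (pp m) (ee β m)

lemma fi_add (m n : ℤ) : fi β (m + 2 * n) = gg β ^ n • fi β m := by
  unfold fi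
  rw [ee_add, smul_bv]
  congr 1
  unfold pp
  rw [show (m + 2 * n) % 2 = m % 2 by omega]

lemma fi_succ (m : ℤ) : fi β (m + 1) = bv (CC B) (!pp m) (ee β m) := by
  unfold fi
  rw [pp_succ]
  rcases Int.emod_two_eq_zero_or_one m with h | h
  · have h1 : pp m = false := by unfold pp; rw [h]; rfl
    rw [h1, ee_odd β (m := m + 1) (by omega), add_sub_cancel_right]
    symm
    rw [bv_eq, inv_mul_cancel_left]
    exact w_mem
  · have h1 : pp m = true := by unfold pp; rw [h]; rfl
    rw [h1, ee_even β (m := m + 1) (by omega), add_sub_cancel_right]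
    symm
    rw [bv_eq, inv_mul_cancel_left]
    exact b_mem β

lemma fi_adj (m : ℤ) : (TT B).Adj (fi β m) (fi β (m + 1)) := by
  rw [fi_succ]
  exact bs_adj _ _

variable {β}

lemma fi_ne (hβ : β ≠ 1) (m : ℤ) : fi β m ≠ fi β (m + 2) := by
  intro h
  have e2 : fi β (m + 2) = bv (CC B) (!pp (m + 1)) (ee β (m + 1)) := by
    rw [show m + 2 = m + 1 + 1 by ring, fi_succ]
  rw [e2, pp_succ, Bool.not_not] at h
  -- the edges `m` and `m + 1` share both ends
  have h3 : bv (CC B) (!pp m) (ee β m) = bv (CC B) (!pp m) (ee β (m + 1)) := by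
    rw [← fi_succ]
    unfold fi
    rw [pp_succ]
  have h4 := edge_unique h h3
  rcases Int.emod_two_eq_zero_or_one m with h5 | h5
  · rw [ee_odd β (m := m + 1) (by omega), add_sub_cancel_right] at h4
    exact w_ne_one (left_eq_mul.1 h4)
  · rw [ee_even β (m := m + 1) (by omega), add_sub_cancel_right] at h4
    apply hβ
    apply inl_inj
    rw [map_one]
    exact left_eq_mul.1 h4

lemma fi_geod (hβ : β ≠ 1) (a : ℤ) (n : ℕ) : (TT B).dist (fi β a) (fi β (a + n)) = n ∧
    (TT B).dist (fi β a) (fi β (a + n + 1)) = n + 1 := by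
  induction n with
  | zero =>
    simp only [Nat.cast_zero, add_zero, dist_self, zero_add, true_and]
    exact dist_eq_one_iff_adj.2 (fi_adj β a)
  | succ n ih =>
    obtain ⟨h1, h2⟩ := ih
    have e : a + ((n + 1 : ℕ) : ℤ) = a + n + 1 := by push_cast; ring
    rw [e]
    refine ⟨h2, ?_⟩
    have h3 := adj_dist isTree (fi_adj β (a + n + 1)) (fi β a)
    rw [(TT B).dist_comm (v := fi β a), (TT B).dist_comm (v := fi β a)] at h3
    rcases h3 with h3 | h3
    · exfalso
      apply fi_ne hβ (a + n)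
      refine closer_unique isTree (x := fi β (a + n + 1)) (w := fi β a) (fi_adj β (a + n)).symm ?_ ?_ ?_
      · have := fi_adj β (a + n + 1)
        rwa [show a + (n : ℤ) + 1 + 1 = a + n + 2 by ring] at this
      · rw [(TT B).dist_comm (v := fi β a), (TT B).dist_comm (v := fi β a)]
        omega
      · rw [(TT B).dist_comm (v := fi β a), (TT B).dist_comm (v := fi β a)]
        rw [show a + (n : ℤ) + 1 + 1 = a + n + 2 by ring] at h3
        omega
    · omega

lemma fi_line (hβ : β ≠ 1) : (ZT B).IsLine (fi β) := by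
  intro a b
  rw [ZT_d]
  rcases le_total a b with h | h
  · obtain ⟨n, hn⟩ := Int.eq_ofNat_of_zero_le (sub_nonneg.2 h)
    have e : b = a + n := by omega
    rw [e, (fi_geod hβ a n).1]
    simp
  · obtain ⟨n, hn⟩ := Int.eq_ofNat_of_zero_le (sub_nonneg.2 h)
    have e : a = b + n := by omega
    rw [e, (TT B).dist_comm, (fi_geod hβ b n).1]
    simp

/-! ### two lines of the family -/

/-- the edge between `h • fi (s + ε k)` and `h • fi (s + ε (k + 1))` -/
lemma inc (h : Gam B) (s ε k : ℤ) (hε : ε = 1 ∨ ε = -1) :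
    h • fi β (s + ε * k) = bv (CC B) (pp (s + ε * k)) (h * ee β (s + ε * k + (ε - 1) / 2)) ∧
    h • fi β (s + ε * (k + 1)) =
      bv (CC B) (!pp (s + ε * k)) (h * ee β (s + ε * k + (ε - 1) / 2)) := by
  rcases hε with rfl | rfl
  · have e1 : s + 1 * k + (1 - 1) / 2 = s + k := by norm_num
    rw [e1, one_mul, one_mul, ← add_assoc, fi_succ, smul_bv]
    exact ⟨rfl, rfl⟩
  · have e1 : s + -1 * k + (-1 - 1) / 2 = s - k - 1 := by norm_num; ring
    have e2 : s + -1 * k = s - k - 1 + 1 := by ring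
    have e3 : s + -1 * (k + 1) = s - k - 1 := by ring
    rw [e1, e3, e2, fi_succ, pp_succ, smul_bv, Bool.not_not]
    exact ⟨rfl, rfl⟩

lemma cross (h : Gam B) (s ε k : ℤ) (hε : ε = 1 ∨ ε = -1) :
    (h * ee β (s + ε * k + (ε - 1) / 2))⁻¹ * (h * ee β (s + ε * (k + 1) + (ε - 1) / 2)) =
      (if (s + ε * (k + 1)) % 2 = 0 then (Coprod.inl β : Gam B) else ww B) ^ ε := by
  have key : ∀ m : ℤ, (ee β (m - 1))⁻¹ * ee β m =
      (if m % 2 = 0 then (Coprod.inl β : Gam B) else ww B) := by
    intro m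
    by_cases hm : m % 2 = 0
    · rw [if_pos hm, ee_even β (m := m) hm, inv_mul_cancel_left]
    · rw [if_neg hm, ee_odd β (m := m) (by omega), inv_mul_cancel_left]
  have e0 : ∀ x y : Gam B, (h * x)⁻¹ * (h * y) = x⁻¹ * y := fun x y => by group
  rw [e0]
  rcases hε with rfl | rfl
  · have e1 : s + 1 * k + (1 - 1) / 2 = (s + 1 * (k + 1)) - 1 := by norm_num; ring
    have e2 : s + 1 * (k + 1) + (1 - 1) / 2 = s + 1 * (k + 1) := by norm_num
    rw [e1, e2, key, zpow_one]
  · have e1 : s + -1 * k + (-1 - 1) / 2 = s + -1 * (k + 1) := by norm_num; ring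
    have e2 : s + -1 * (k + 1) + (-1 - 1) / 2 = s + -1 * (k + 1) - 1 := by norm_num; ring
    rw [e1, e2, ← key, zpow_neg, zpow_one, mul_inv_rev, inv_inv]

end lines

section key

variable {B : Type} [Group B] (β : Bool → B) (hne : β false ≠ β true)
include hne

omit hne in
lemma w_zpow {ε ε' : ℤ} (hε : ε = 1 ∨ ε = -1) (hε' : ε' = 1 ∨ ε' = -1)
    (h : ww B ^ ε = ww B ^ ε') : ε = ε' := by
  have h1 := w_ne_inv (B := B)
  rcases hε with rfl | rfl <;> rcases hε' with rfl | rfl
  · rfl
  · rw [zpow_one, zpow_neg, zpow_one] at h; exact absurd h h1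
  · rw [zpow_one, zpow_neg, zpow_one] at h; exact absurd h.symm h1
  · rfl

lemma b_zpow {ε : ℤ} (hε : ε = 1 ∨ ε = -1) {j j' : Bool}
    (h : (Coprod.inl (β j) : Gam B) ^ ε = Coprod.inl (β j') ^ ε) : j = j' := by
  have h1 : β j = β j' := by
    apply inl_inj
    rcases hε with rfl | rfl
    · rwa [zpow_one, zpow_one] at h
    · rw [zpow_neg, zpow_one, zpow_neg, zpow_one] at h
      exact inv_injective h
  cases j <;> cases j'
  · rfl
  · exact absurd h1 hne
  · exact absurd h1.symm hne
  · rfl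

theorem agree (h h' : Gam B) (j j' : Bool) (s s' ε ε' : ℤ) (hε : ε = 1 ∨ ε = -1)
    (hε' : ε' = 1 ∨ ε' = -1)
    (hk : ∀ k : ℤ, 0 ≤ k → k ≤ 3 → h • fi (β j) (s + ε * k) = h' • fi (β j') (s' + ε' * k)) :
    ε = ε' ∧ ∀ k, h • fi (β j) (s + ε * k) = h' • fi (β j') (s' + ε' * k) := by
  have ht : ∀ k : ℤ, 0 ≤ k → k ≤ 3 → (s + ε * k) % 2 = (s' + ε' * k) % 2 := by
    intro k h1 h2
    have := hk k h1 h2
    rw [(inc h s ε k hε).1, (inc h' s' ε' k hε').1] at this
    exact pp_eq (bv_fst this)
  have hE : ∀ k : ℤ, 0 ≤ k → k ≤ 2 → h * ee (β j) (s + ε * k + (ε - 1) / 2) =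
      h' * ee (β j') (s' + ε' * k + (ε' - 1) / 2) := by
    intro k h1 h2
    have e1 := hk k h1 (by omega)
    have e2 := hk (k + 1) (by omega) (by omega)
    rw [(inc h s ε k hε).1, (inc h' s' ε' k hε').1] at e1
    rw [(inc h s ε k hε).2, (inc h' s' ε' k hε').2] at e2
    have e3 := bv_fst e1
    rw [← e3] at e1 e2
    exact edge_unique e1 e2
  have hX : ∀ k : ℤ, 0 ≤ k → k ≤ 1 →
      (if (s + ε * (k + 1)) % 2 = 0 then (Coprod.inl (β j) : Gam B) else ww B) ^ ε =
      (if (s + ε * (k + 1)) % 2 = 0 then (Coprod.inl (β j') : Gam B) else ww B) ^ ε' := by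
    intro k h1 h2
    rw [← cross h s ε k hε, hE k h1 (by omega), hE (k + 1) (by omega) (by omega),
      cross h' s' ε' k hε', ht (k + 1) (by omega) (by omega)]
  have h0 := hX 0 le_rfl (by norm_num)
  have h1 := hX 1 (by norm_num) le_rfl
  have hp : (s + ε * (1 + 1)) % 2 ≠ (s + ε * (0 + 1)) % 2 := by
    rcases hε with rfl | rfl <;> omega
  have hee : ε = ε' := by
    by_cases hs : (s + ε * (0 + 1)) % 2 = 0
    · rw [if_neg (by omega), if_neg (by omega)] at h1
      exact w_zpow hε hε' h1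
    · rw [if_neg hs, if_neg hs] at h0
      exact w_zpow hε hε' h0
  refine ⟨hee, ?_⟩
  subst hee
  have hj : j = j' := by
    by_cases hs : (s + ε * (0 + 1)) % 2 = 0
    · rw [if_pos hs, if_pos hs] at h0
      exact b_zpow β hne hε h0
    · rw [if_pos (by omega), if_pos (by omega)] at h1
      exact b_zpow β hne hε h1
  subst hj
  have hs := ht 0 le_rfl (by norm_num)
  rw [mul_zero, add_zero, add_zero] at hs
  obtain ⟨n, hn⟩ : ∃ n, s = s' + 2 * n := ⟨(s - s') / 2, by omega⟩
  have hE0 := hE 0 le_rfl (by norm_num)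
  rw [mul_zero, add_zero, add_zero, hn,
    show s' + 2 * n + (ε - 1) / 2 = s' + (ε - 1) / 2 + 2 * n by ring, ee_add, ← mul_assoc] at hE0
  have hh : h * gg (β j) ^ n = h' := mul_right_cancel hE0
  intro k
  rw [hn, show s' + 2 * n + ε * k = s' + ε * k + 2 * n by ring, fi_add, ← msm, hh]

end key

section fam

variable {B : Type} [Group B] (β : Bool → B)

/-- the family -/
def fm : Set ((ℤ → BV (CC B)) × ℤ) :=
  {x | ∃ (h : Gam B) (j : Bool) (s ε : ℤ), (ε = 1 ∨ ε = -1) ∧
    x = (fun k => h • fi (β j) (s + ε * k), 280)}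

variable (hβ : ∀ j, β j ≠ 1) (hne : β false ≠ β true)

/-- the family of lines -/
noncomputable def FF : LF (Gam B) (BV (CC B)) where
  T := ZT B
  fam := fm β
  K := 20
  v0 := bv (CC B) false 1
  hK := le_rfl
  smul_d g p q := by rw [ZT_d, ZT_d, actdist]
  pfix g p q h hp hq := pfix' g p q h hp hq
  step := by
    intro n q hq
    rw [ZT_d] at hq
    by_cases h0 : q = bv (CC B) false 1
    · subst h0
      exact ⟨bv (CC B) false 1, by rw [ZT_d, dist_self]; simp, by rw [ZT_d, dist_self]; simp⟩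
    · obtain ⟨y, a, hy⟩ := exists_closer isTree h0
      refine ⟨y, ?_, ?_⟩
      · rw [ZT_d, (TT B).dist_comm]
        rw [(TT B).dist_comm] at hq
        omega
      · rw [ZT_d, (dist_eq_one_iff_adj.2 a.symm : (TT B).dist y q = 1)]
        norm_num
  line := by
    rintro _ ⟨h, j, s, ε, hε, rfl⟩ a b
    show (ZT B).d (h • _) (h • _) = _
    rw [ZT_d, actdist, ← ZT_d, fi_line (hβ j)]
    rcases hε with rfl | rfl
    · congr 1; ring
    · rw [show s + -1 * a - (s + -1 * b) = -(a - b) by ring, abs_neg]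
  smul_mem := by
    rintro g _ ⟨h, j, s, ε, hε, rfl⟩
    refine ⟨g * h, j, s, ε, hε, ?_⟩
    simp only [msm]
  shift_mem := by
    rintro t _ ⟨h, j, s, ε, hε, rfl⟩
    refine ⟨h, j, s + ε * t, ε, hε, ?_⟩
    simp only
    congr 1
    funext k
    rw [show s + ε * (k + t) = s + ε * t + ε * k by ring]
  rev_mem := by
    rintro _ ⟨h, j, s, ε, hε, rfl⟩
    refine ⟨h, j, s, -ε, by omega, ?_⟩
    simp only
    congr 1
    funext k
    rw [show s + ε * -k = s + -ε * k by ring]
  KL := by
    rintro _ ⟨h, j, s, ε, hε, rfl⟩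
    norm_num
  sc := by
    rintro _ ⟨h, j, s, ε, hε, rfl⟩ _ ⟨h', j', s', ε', hε', rfl⟩ t ht hK
    have ht' : 3 ≤ t := by
      have : (280 : ℤ) ≤ 20 * t := by rcases hK with h | h <;> exact h
      omega
    have h1 := (agree β hne h h' j j' s s' ε ε' hε hε' (by
      intro k h1 h2
      obtain ⟨n, rfl⟩ := Int.eq_ofNat_of_zero_le h1
      exact ht n (by omega))).2
    congr 1
    funext k
    exact h1 k

lemma FF_fam : (FF β hβ hne).fam = fm β := rfl

lemma trans_mem {h : Gam B} {j : Bool} {s ε : ℤ} (_hε : ε = 1 ∨ ε = -1) (m k : ℤ) :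
    (h * gg (β j) ^ (140 * m * ε) * h⁻¹) • (h • fi (β j) (s + ε * k)) =
      h • fi (β j) (s + ε * (k + m * 280)) := by
  rw [← msm, inv_mul_cancel_right, msm, ← fi_add]
  congr 2
  ring

end fam

theorem t : Pool.Agent.H346.QC.S_FAM := by
  intro B _ b0 b1 h0 h1 h01
  let β : Bool → B := fun j => cond j b1 b0
  have hβ : ∀ j, β j ≠ 1 := by
    intro j
    cases j
    · exact h0
    · exact h1
  have hne : β false ≠ β true := h01
  refine ⟨BV (CC B), inferInstance, FF β hβ hne, rfl, ?_, ?_, ?_, ?_, ?_, ?_⟩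
  · rintro _ ⟨h, j, s, ε, hε, rfl⟩
    rfl
  · intro g
    show g • bv (CC B) false 1 = bv (CC B) false 1 ↔ _
    rw [smul_bv, eq_comm, bv_eq, mul_one, inv_one, one_mul, mem_false]
    constructor
    · rintro ⟨b, h⟩; exact ⟨b, h.symm⟩
    · rintro ⟨b, h⟩; exact ⟨b, h.symm⟩
  · show (ZT B).d (bv (CC B) false 1) (ww B • bv (CC B) false 1) ≤ 2
    rw [ZT_d, smul_bv, mul_one]
    have e1 : (TT B).dist (bv (CC B) false 1) (bv (CC B) true 1) = 1 :=
      dist_eq_one_iff_adj.2 (bs_adj false 1)
    have e2 : (TT B).dist (bv (CC B) true 1) (bv (CC B) false (ww B)) = 1 := by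
      have e3 : bv (CC B) true 1 = bv (CC B) true (ww B) := by
        rw [bv_eq, inv_one, one_mul]
        exact w_mem
      rw [e3]
      exact dist_eq_one_iff_adj.2 (bs_adj true (ww B))
    have e4 := tri isTree (bv (CC B) false 1) (bv (CC B) true 1) (bv (CC B) false (ww B))
    omega
  · rintro _ ⟨h, j, s, ε, hε, rfl⟩ g hg
    have := (agree β hne (g * h) h j j s s ε (-ε) hε (by omega) (by
      intro k _ _
      have := hg k
      simp only at this
      rw [msm, this]
      congr 2
      ring)).1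
    omega
  · rintro _ ⟨h, j, s, ε, hε, rfl⟩
    refine ⟨h * gg (β j) ^ (140 * 1 * ε) * h⁻¹, fun k => ?_⟩
    simp only
    rw [trans_mem β hε 1 k, one_mul]
  · have hgt : ∀ j, gg (β j) ^ (140 : ℤ) ∈ Subgroup.normalClosure (tors b0 b1) := by
      intro j
      apply Subgroup.subset_normalClosure
      rw [show (140 : ℤ) = ((140 : ℕ) : ℤ) by norm_num, zpow_natCast]
      cases j
      · left; rfl
      · right; rfl
    apply le_antisymm
    · apply iSup_le
      rintro ⟨_, h, j, s, ε, hε, rfl⟩ τ ⟨m, hm⟩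
      simp only at hm
      have e : τ = h * gg (β j) ^ (140 * m * ε) * h⁻¹ := by
        have e1 : (h * gg (β j) ^ (140 * m * ε) * h⁻¹)⁻¹ * τ = 1 := by
          have hk : ∀ k, ((h * gg (β j) ^ (140 * m * ε) * h⁻¹)⁻¹ * τ) •
              (h • fi (β j) (s + ε * k)) = h • fi (β j) (s + ε * k) := by
            intro k
            rw [msm, hm, ← trans_mem β hε m k, ← msm, inv_mul_cancel, osm]
          refine pfix' _ (h • fi (β j) (s + ε * 0)) (h • fi (β j) (s + ε * 1)) ?_ (hk 0) (hk 1)
          intro h2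
          have h3 : (ZT B).d (h • fi (β j) (s + ε * 0)) (h • fi (β j) (s + ε * 1)) = 0 := by
            rw [h2]; exact (ZT B).d_self _
          rw [ZT_d, actdist, ← ZT_d, fi_line (hβ j)] at h3
          rcases hε with rfl | rfl
          · norm_num at h3
          · norm_num at h3
        exact (inv_mul_eq_one.1 e1).symm
      rw [e]
      apply (Subgroup.normalClosure_normal).conj_mem
      rw [mul_assoc, zpow_mul]
      exact Subgroup.zpow_mem _ (hgt j) _
    · rw [Subgroup.normalClosure, Subgroup.closure_le]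
      intro x hx
      rw [Group.mem_conjugatesOfSet_iff] at hx
      obtain ⟨a, ha, hc⟩ := hx
      obtain ⟨c, hc⟩ := isConj_iff.1 hc
      obtain ⟨j, hj⟩ : ∃ j, a = gg (β j) ^ (140 : ℤ) := by
        have e0 : gg (β false) = Coprod.inl b0 * ww B := rfl
        have e1 : gg (β true) = Coprod.inl b1 * ww B := rfl
        simp only [tors, Set.mem_insert_iff, Set.mem_singleton_iff] at ha
        rcases ha with ha | ha
        · refine ⟨false, ?_⟩
          rw [e0, ha, ← zpow_natCast]; rfl
        · refine ⟨true, ?_⟩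
          rw [e1, ha, ← zpow_natCast]; rfl
      have hmem : ((fun k => c • fi (β j) (0 + 1 * k), (280 : ℤ)) :
          (ℤ → BV (CC B)) × ℤ) ∈ (FF β hβ hne).fam := ⟨c, j, 0, 1, Or.inl rfl, rfl⟩
      refine (le_iSup (fun x : (FF β hβ hne).fam => Pool.Agent.H17R2.trans x.1.1 x.1.2)
        ⟨_, hmem⟩ : _) ?_
      refine ⟨1, fun k => ?_⟩
      simp only
      rw [← hc, hj]
      have := trans_mem β (h := c) (j := j) (s := 0) (ε := 1) (Or.inl rfl) 1 k
      rw [mul_one, mul_one] at this
      exact this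

end Pool.Agent.H627.QC
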